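import Pool.Agent.H27.Mag3

set_option autoImplicit false

namespace Pool.Agent.Results.MP_cbccc2_co.Lift

open Pool.Agent.H27.Mag

theorem result : ∃ (V W : Type) (_ : Fintype V) (_ : Fintype W) (G : SimpleGraph V)
    (H : SimpleGraph W) (_ : DecidableRel G.Adj) (_ : DecidableRel H.Adj) (p : W → V),
    Function.Surjective p ∧ (∀ x y, H.Adj x y → G.Adj (p x) (p y)) ∧
    (∀ x, Set.BijOn p (H.neighborSet x) (G.neighborSet (p x))) ∧ nu G < nu H := by
  have h : ∀ x y, G8.Adj x y → G6.Adj (pr x) (pr y) := by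
    rintro x _ ⟨i, rfl⟩
    exact ⟨i, (pr_add x i).symm⟩
  refine ⟨_, _, inferInstance, inferInstance, G6, G8, inferInstance, inferInstance, pr, pr_surj, h,
    fun x => ⟨h x, ?_, ?_⟩, nu_G6.trans_le nu_G8⟩
  · rintro _ ⟨i, rfl⟩ _ ⟨j, rfl⟩ e
    rw [pr_add, pr_add, add_right_inj] at e
    rw [c6 e]
  · rintro _ ⟨i, rfl⟩
    exact ⟨_, ⟨i, rfl⟩, pr_add x i⟩

end Pool.Agent.Results.MP_cbccc2_co.Lift
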